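import Pool.Agent.Helper29.T4.Pin

/-!
# Union bound over families of `m` hits with disjoint fresh keys
-/

namespace Pool.Agent.Helper8.MB

open Finset Pool.Agent.Helper29.T4

variable {κ : Type*} [Fintype κ] [DecidableEq κ]

open Classical in
/-- union bound over families of `m` hits with disjoint fresh keys; `Q` bounds the expected number
of hits -/
theorem tuple_bound_all {δ : Type*} (M : κ → ℕ) (hM : ∀ k, 0 < M k) (Y : Finset δ)
    (hit : δ → (κ → ℕ) → Prop) (fk : δ → Finset κ) (vl : δ → κ → ℕ)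
    (hv : ∀ y ∈ Y, ∀ r ∈ Om M, hit y r → ∀ k ∈ fk y, r k = vl y k) (Q : ℝ)
    (hQ : ∑ z ∈ Y, ∏ k ∈ fk z, ((M k : ℝ))⁻¹ ≤ Q) (m : ℕ) :
    (((Om M).filter (fun r => ∃ T ⊆ Y, T.card = m ∧ (∀ y ∈ T, hit y r) ∧
        (∀ y ∈ T, ∀ z ∈ T, y ≠ z → Disjoint (fk y) (fk z)))).card : ℝ) ≤
      (Om M).card * Q ^ m := by
  have hcov : ((Om M).filter (fun r => ∃ T ⊆ Y, T.card = m ∧ (∀ y ∈ T, hit y r) ∧
        (∀ y ∈ T, ∀ z ∈ T, y ≠ z → Disjoint (fk y) (fk z)))) ⊆
      (Fintype.piFinset (fun _ : Fin m => Y)).biUnion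
        (fun g => (Om M).filter (fun r => (∀ i j, i ≠ j → Disjoint (fk (g i)) (fk (g j))) ∧
          ∀ i, ∀ k ∈ fk (g i), r k = vl (g i) k)) := by
    intro r hr
    rw [Finset.mem_filter] at hr
    obtain ⟨hrΩ, T, hTY, hTc, hhit, hdis⟩ := hr
    let e := T.equivFinOfCardEq hTc
    have hmem : ∀ i : Fin m, ((e.symm i : T) : δ) ∈ T := fun i => (e.symm i).2
    rw [Finset.mem_biUnion]
    refine ⟨fun i => (e.symm i : δ), ?_, ?_⟩
    · rw [Fintype.mem_piFinset]
      intro i
      exact hTY (hmem i)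
    · rw [Finset.mem_filter]
      refine ⟨hrΩ, ?_, ?_⟩
      · intro i j hij
        apply hdis _ (hmem i) _ (hmem j)
        intro h
        apply hij
        exact e.symm.injective (Subtype.ext h)
      · intro i k hk
        exact hv _ (hTY (hmem i)) r hrΩ (hhit _ (hmem i)) k hk
  have hone : ∀ g ∈ Fintype.piFinset (fun _ : Fin m => Y),
      (((Om M).filter (fun r => (∀ i j, i ≠ j → Disjoint (fk (g i)) (fk (g j))) ∧
          ∀ i, ∀ k ∈ fk (g i), r k = vl (g i) k)).card : ℝ) ≤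
        (Om M).card * ∏ i, ∏ k ∈ fk (g i), ((M k : ℝ))⁻¹ := by
    intro g hg
    by_cases hd : ∀ i j, i ≠ j → Disjoint (fk (g i)) (fk (g j))
    · -- the common value function
      let v : κ → ℕ := fun k => if h : ∃ i, k ∈ fk (g i) then vl (g h.choose) k else 0
      have hsub : ((Om M).filter (fun r => (∀ i j, i ≠ j → Disjoint (fk (g i)) (fk (g j))) ∧
          ∀ i, ∀ k ∈ fk (g i), r k = vl (g i) k)) ⊆
          (Om M).filter (fun r => ∀ k ∈ Finset.univ.biUnion (fun i => fk (g i)), r k = v k) := by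
        intro r hr
        rw [Finset.mem_filter] at hr ⊢
        refine ⟨hr.1, ?_⟩
        intro k hk
        rw [Finset.mem_biUnion] at hk
        obtain ⟨i, _, hi⟩ := hk
        have hex : ∃ i, k ∈ fk (g i) := ⟨i, hi⟩
        simp only [v, dif_pos hex]
        exact hr.2.2 _ k hex.choose_spec
      refine (Nat.cast_le.mpr (Finset.card_le_card hsub)).trans ?_
      refine (pin_real M hM _ v).trans ?_
      apply mul_le_mul_of_nonneg_left _ (Nat.cast_nonneg _)
      rw [Finset.prod_biUnion (by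
        intro i _ j _ hij
        exact hd i j hij)]
    · have hemp : ((Om M).filter (fun r => (∀ i j, i ≠ j → Disjoint (fk (g i)) (fk (g j))) ∧
          ∀ i, ∀ k ∈ fk (g i), r k = vl (g i) k)) = ∅ := by
        apply Finset.filter_false_of_mem
        intro r _ h
        exact hd h.1
      rw [hemp]
      simp only [Finset.card_empty, Nat.cast_zero]
      apply mul_nonneg (Nat.cast_nonneg _)
      exact Finset.prod_nonneg (fun i _ => Finset.prod_nonneg
        (fun k _ => inv_nonneg.mpr (Nat.cast_nonneg _)))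
  have hnn : ∀ y : δ, 0 ≤ ∏ k ∈ fk y, ((M k : ℝ))⁻¹ := fun y =>
    Finset.prod_nonneg (fun k _ => inv_nonneg.mpr (Nat.cast_nonneg _))
  calc _ ≤ (((Fintype.piFinset (fun _ : Fin m => Y)).biUnion
        (fun g => (Om M).filter (fun r => (∀ i j, i ≠ j → Disjoint (fk (g i)) (fk (g j))) ∧
          ∀ i, ∀ k ∈ fk (g i), r k = vl (g i) k))).card : ℝ) :=
        Nat.cast_le.mpr (Finset.card_le_card hcov)
    _ ≤ ∑ g ∈ Fintype.piFinset (fun _ : Fin m => Y),
        (((Om M).filter (fun r => (∀ i j, i ≠ j → Disjoint (fk (g i)) (fk (g j))) ∧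
          ∀ i, ∀ k ∈ fk (g i), r k = vl (g i) k)).card : ℝ) := by
        have h1 : ((Fintype.piFinset (fun _ : Fin m => Y)).biUnion
            (fun g => (Om M).filter (fun r => (∀ i j, i ≠ j → Disjoint (fk (g i)) (fk (g j))) ∧
          ∀ i, ∀ k ∈ fk (g i), r k = vl (g i) k))).card ≤
          ∑ g ∈ Fintype.piFinset (fun _ : Fin m => Y),
        ((Om M).filter (fun r => (∀ i j, i ≠ j → Disjoint (fk (g i)) (fk (g j))) ∧
          ∀ i, ∀ k ∈ fk (g i), r k = vl (g i) k)).card := Finset.card_biUnion_le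
        exact_mod_cast h1
    _ ≤ ∑ g ∈ Fintype.piFinset (fun _ : Fin m => Y),
        ((Om M).card : ℝ) * ∏ i, ∏ k ∈ fk (g i), ((M k : ℝ))⁻¹ :=
        Finset.sum_le_sum (fun g hg => hone g hg)
    _ = ((Om M).card : ℝ) * (∑ z ∈ Y, ∏ k ∈ fk z, ((M k : ℝ))⁻¹) ^ m := by
        rw [← Finset.mul_sum]
        congr 1
        rw [← Fin.prod_const, Finset.prod_univ_sum]
    _ ≤ (Om M).card * Q ^ m := by
        apply mul_le_mul_of_nonneg_left _ (Nat.cast_nonneg _)
        exact pow_le_pow_left₀ (Finset.sum_nonneg (fun z _ => hnn z)) hQ m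

end Pool.Agent.Helper8.MB
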