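import Pool.Agent.Helper8.MB.Meso
import Pool.Agent.Helper8.MB.Pin1
import Pool.Agent.Helper27.T4.Sch

/-!
# T4', meso block, part (E), in the form used in the assembly
-/

namespace Pool.Agent.Helper8.MB

open Finset Pool.Agent.Helper27.T4 Pool.Agent.Helper5.ET Pool.Agent.Helper3.M
open Pool.Agent.Helper25.T4 (hkey hkey_mem Mk_hkey)
open Pool.Agent.Helper53.TF (glue Mk_pos ext_mem)

theorem el_lt (s : ℕ) (w : Key → ℕ) (x : Fin 3 → ℕ) (v : ℕ) (hv : v < vhi s) :
    el s w x v < Nj (sk (s + 1)) := by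
  unfold el vhi at *
  have h1 : code s w x < Nj (se s) := codeH_lt _ _ _
  have h2 : (Nj (sk (s + 1)) - Nj (se s)) / Nj (sl s) * Nj (sl s) ≤
      Nj (sk (s + 1)) - Nj (se s) := Nat.div_mul_le_self _ _
  have h3 : (v + 1) * Nj (sl s) ≤ (Nj (sk (s + 1)) - Nj (se s)) / Nj (sl s) * Nj (sl s) :=
    Nat.mul_le_mul_right _ hv
  have h4 : 0 < Nj (sl s) := NN_pos pr_prime _
  have h5 : (v + 1) * Nj (sl s) = Nj (sl s) * v + Nj (sl s) := by ring
  omega

open Classical in
/-- one `n` -/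
theorem keys_prob_one {s s' : ℕ} (hs : s ≠ s') (K : Finset Key) (hK : keysOf s ⊆ K)
    (hK' : keysOf s' ⊆ K) (R R' P : Finset (Fin 3)) (hP : ∀ f ∈ R, P ⊆ pre (sl s) f)
    (hP' : ∀ f ∈ R', P ⊆ pre (sl s') f) (w0 : Key → ℕ) (V V' : Finset ℕ) (n : ℕ) (S : ℝ)
    (hS : ((YY s s' w0 R R' V V' n).card : ℝ) ≤
      S * ((MM pr (av (se s)) R : ℝ) * MM pr (av (se s')) R')) (m : ℕ) :
    PrLe (K \ K0 s s' R R' K) (fun w =>
        ∃ T ⊆ hits s s' (glue (K0 s s' R R' K) w0 w) V V' n, T.card = m ∧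
          (∀ q ∈ T, ∀ q' ∈ T, q ≠ q' → mask P q.1.1 ≠ mask P q'.1.1) ∧
          (∀ q ∈ T, ∀ q' ∈ T, q ≠ q' → mask P q.2.1 ≠ mask P q'.2.1))
      (S ^ m) := by
  have hMM : (0 : ℝ) < (MM pr (av (se s)) R : ℝ) * MM pr (av (se s')) R' := by
    have h1 := MM_pos pr_prime (av (se s)) R
    have h2 := MM_pos pr_prime (av (se s')) R'
    positivity
  have hmain := tuple_bound_all
    (fun k : (K \ K0 s s' R R' K : Finset Key) => Mk k.1)
    (fun k => Mk_pos k.1) (YY s s' w0 R R' V V' n)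
    (fun y r => (∀ f ∈ R, Helper5.ET.ext (K \ K0 s s' R R' K) r (hkey s f y.1.1.1) = y.2.1 f) ∧
      ∀ f ∈ R', Helper5.ET.ext (K \ K0 s s' R R' K) r (hkey s' f y.1.2.1) = y.2.2 f)
    (fun y => (fkk s s' R R' y.1).subtype (fun k => k ∈ K \ K0 s s' R R' K))
    (fun y k => if k.1.1 = s then
        (if h : k.1.2.1 < 3 then y.2.1 ⟨k.1.2.1, h⟩ else 0)
      else (if h : k.1.2.1 < 3 then y.2.2 ⟨k.1.2.1, h⟩ else 0))
    ?_ S ?_ m
  · unfold PrLe OmK
    rw [mul_comm]
    refine le_trans ?_ hmain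
    apply Nat.cast_le.mpr
    refine card_filter_le_of_imp _ _ _ _ _ ?_
    rintro r hr ⟨T, hTsub, hTc, hT1, hT2⟩
    have hlt : ∀ k, Helper5.ET.ext (K \ K0 s s' R R' K) r k < Mk k :=
      Pool.Agent.Helper53.TF.ext_lt hr
    let dat : Hit → Hit × (Fin 3 → ℕ) × (Fin 3 → ℕ) := fun q =>
      (q, (fun f => if f ∈ R then
        Helper5.ET.ext (K \ K0 s s' R R' K) r (hkey s f q.1.1) else 0),
        (fun f => if f ∈ R' then
        Helper5.ET.ext (K \ K0 s s' R R' K) r (hkey s' f q.2.1) else 0))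
    have hinj : Function.Injective dat := by
      intro q q' h
      exact (Prod.mk.inj h).1
    refine ⟨T.image dat, ?_, ?_, ?_, ?_⟩
    · intro y hy
      rw [Finset.mem_image] at hy
      obtain ⟨q, hq, rfl⟩ := hy
      have hq1 := hTsub hq
      unfold hits at hq1
      rw [Finset.mem_filter] at hq1
      obtain ⟨hqC, hqE⟩ := hq1
      have hqx : q.1.1 ∈ XX s := (Finset.mem_product.mp (Finset.mem_product.mp hqC).1).1
      have hqx' : q.2.1 ∈ XX s' := (Finset.mem_product.mp (Finset.mem_product.mp hqC).2).1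
      unfold YY
      rw [Finset.mem_filter]
      refine ⟨?_, ?_⟩
      · rw [Finset.mem_product, Finset.mem_product]
        exact ⟨hqC, mem_Rng hlt _, mem_Rng hlt _⟩
      · show Eqn s s' n (hval s w0 R (fun f => if f ∈ R then
            Helper5.ET.ext (K \ K0 s s' R R' K) r (hkey s f q.1.1) else 0) q.1.1)
          (hval s' w0 R' (fun f => if f ∈ R' then
            Helper5.ET.ext (K \ K0 s s' R R' K) r (hkey s' f q.2.1) else 0) q.2.1) q
        rw [← hv_glue hs hK w0 (Helper5.ET.ext (K \ K0 s s' R R' K) r) hqx,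
          ← hv_glue' hs hK' w0 (Helper5.ET.ext (K \ K0 s s' R R' K) r) hqx']
        unfold Eqn
        rw [← code_eq, ← code_eq]
        exact hqE
    · rw [Finset.card_image_of_injective _ hinj, hTc]
    · intro y hy
      rw [Finset.mem_image] at hy
      obtain ⟨q, hq, rfl⟩ := hy
      refine ⟨fun f hf => ?_, fun f hf => ?_⟩
      · show _ = if f ∈ R then _ else 0
        rw [if_pos hf]
      · show _ = if f ∈ R' then _ else 0
        rw [if_pos hf]
    · intro y hy z hz hyz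
      rw [Finset.mem_image] at hy hz
      obtain ⟨q, hq, rfl⟩ := hy
      obtain ⟨q', hq', rfl⟩ := hz
      have hne : q ≠ q' := fun h => hyz (by rw [h])
      have hd := fkk_disj hs hP hP' (hT1 q hq q' hq' hne) (hT2 q hq q' hq' hne)
      rw [Finset.disjoint_left]
      intro k hk hk'
      rw [Finset.mem_subtype] at hk hk'
      exact Finset.disjoint_left.mp hd hk hk'
  · intro y hy r hr hhit k hk
    rw [Finset.mem_subtype, fkk, Finset.mem_union, Finset.mem_image, Finset.mem_image] at hk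
    have hext : Helper5.ET.ext (K \ K0 s s' R R' K) r k.1 = r k := ext_mem r k.2
    rcases hk with ⟨f, hf, he⟩ | ⟨f, hf, he⟩
    · have h1 := hhit.1 f hf
      rw [he, hext] at h1
      have hs1 : k.1.1 = s := by rw [← he]; rfl
      have hf1 : k.1.2.1 = f.val := by rw [← he]; rfl
      have hlt : k.1.2.1 < 3 := by rw [hf1]; exact f.isLt
      have hff : (⟨k.1.2.1, hlt⟩ : Fin 3) = f := Fin.ext hf1
      show r k = if k.1.1 = s then _ else _
      rw [if_pos hs1, dif_pos hlt, hff]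
      exact h1
    · have h1 := hhit.2 f hf
      rw [he, hext] at h1
      have hs1 : k.1.1 = s' := by rw [← he]; rfl
      have hf1 : k.1.2.1 = f.val := by rw [← he]; rfl
      have hlt : k.1.2.1 < 3 := by rw [hf1]; exact f.isLt
      have hff : (⟨k.1.2.1, hlt⟩ : Fin 3) = f := Fin.ext hf1
      show r k = if k.1.1 = s then _ else _
      rw [if_neg (by rw [hs1]; exact hs.symm), dif_pos hlt, hff]
      exact h1
  · have hcR : ((YY s s' w0 R R' V V' n).card : ℝ) *
        ((MM pr (av (se s)) R : ℝ) * MM pr (av (se s')) R')⁻¹ ≤ S := by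
      rw [← div_eq_mul_inv, div_le_iff₀ hMM]
      exact hS
    refine le_trans (le_of_eq ?_) hcR
    rw [← nsmul_eq_mul, ← Finset.sum_const]
    apply Finset.sum_congr rfl
    intro z hzY
    unfold YY at hzY
    rw [Finset.mem_filter, Finset.mem_product] at hzY
    have hqC := hzY.1.1
    have hqx := (Finset.mem_product.mp (Finset.mem_product.mp hqC).1).1
    have hqx' := (Finset.mem_product.mp (Finset.mem_product.mp hqC).2).1
    rw [Finset.prod_subtype_eq_prod_filter (p := fun k => k ∈ K \ K0 s s' R R' K)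
      (f := fun k : Key => ((Mk k : ℝ))⁻¹)]
    rw [Finset.filter_true_of_mem (fkk_sub hK hK' R R' hqx hqx'), prod_fkk hs]

theorem KF_eq (s s' : ℕ) (K : Finset Key) : K \ (K \ KF s s' K) = KF s s' K := by
  exact Finset.sdiff_sdiff_eq_self (Finset.filter_subset _ _)

/-- (E): the probability of many free hits -/
theorem m2 {s s' b : ℕ} {f1 f0 : Fin 3} (h : Meso s s' b f1 f0) (K : Finset Key)
    (hK : keysOf s ⊆ K) (hK' : keysOf s' ⊆ K)
    (w0 : Key → ℕ) (V V' : Finset ℕ)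
    (hV : V ⊆ Ico (vlo s) (vhi s)) (hV' : V' ⊆ Ico (vlo s') (vhi s')) (S : ℝ)
    (hS : ∀ n, ((YY s s' w0 (RR s s') (RR' s s') V V' n).card : ℝ) ≤
      S * ((MM pr (av (se s)) (RR s s') : ℝ) * MM pr (av (se s')) (RR' s s'))) (m : ℕ) :
    PrLe (KF s s' K) (fun w => ∃ n, ∃ T ⊆ Hits s s' (glue (K \ KF s s' K) w0 w) V V' n,
      T.card = m + 1 ∧ Free s s' T) ((2 * Nj (sk (s + 1)) : ℝ) * S ^ (m + 1)) := by
  have hss := h.hss
  have hne : s ≠ s' := by omega
  have h1 : ∀ n ∈ range (2 * Nj (sk (s + 1))), PrLe (KF s s' K) (fun w =>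
      ∃ T ⊆ Hits s s' (glue (K \ KF s s' K) w0 w) V V' n, T.card = m + 1 ∧ Free s s' T)
      (S ^ (m + 1)) := by
    intro n _
    have h2 := keys_prob_one hne K hK hK' (RR s s') (RR' s s') (Pg s s') h.preR h.preR' w0 V V' n S
      (hS n) (m + 1)
    rw [K0_eq, KF_eq] at h2
    refine Pool.Agent.Helper53.TF.PrLe_mono ?_ le_rfl h2
    rintro r hr ⟨T, hT, hTc, hF⟩
    refine ⟨T, hT, hTc, ?_, ?_⟩
    · intro q hq q' hq' hne
      exact (hF q hq q' hq' hne).1
    · intro q hq q' hq' hne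
      exact (hF q hq q' hq' hne).2
  have h3 := Pool.Agent.Helper53.TF.PrLe_exists (range (2 * Nj (sk (s + 1)))) h1
  refine Pool.Agent.Helper53.TF.PrLe_mono ?_ ?_ h3
  · rintro r hr ⟨n, T, hT, hTc, hF⟩
    refine ⟨n, ?_, T, hT, hTc, hF⟩
    have hTne : T.Nonempty := Finset.card_pos.mp (by omega)
    obtain ⟨q, hq⟩ := hTne
    have hq1 := hT hq
    unfold Hits at hq1
    rw [Finset.mem_filter, Finset.mem_product, Finset.mem_product, Finset.mem_product] at hq1
    obtain ⟨⟨⟨_, hv⟩, ⟨_, hv'⟩⟩, hE⟩ := hq1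
    have a1 := el_lt s (glue (K \ KF s s' K) w0 (Helper5.ET.ext (KF s s' K) r)) q.1.1 q.1.2
      (Finset.mem_Ico.mp (hV hv)).2
    have a2 := el_lt s' (glue (K \ KF s s' K) w0 (Helper5.ET.ext (KF s s' K) r)) q.2.1 q.2.2
      (Finset.mem_Ico.mp (hV' hv')).2
    have a3 : Nj (sk (s' + 1)) ≤ Nj (sk (s + 1)) :=
      Pool.Agent.Helper25.T4.Nj_mono (sk_strictMono.monotone (by omega))
    rw [Finset.mem_range]
    omega
  · rw [Finset.sum_const, Finset.card_range, nsmul_eq_mul]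
    push_cast
    exact le_rfl

end Pool.Agent.Helper8.MB
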