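import Pool.Agent.Helper5.ET.Defs
import Pool.Agent.Helper27.T4.Fresh
import Pool.Agent.Helper3.T4.Decode

/-!
# T4', meso block, part M2: definitions

A hit is a pair `((x, v), (x', v'))`.  `G` is the growing family, `R'` the static families which are
hashed by the growing ones; `U` is the complement of `R'`.
-/

namespace Pool.Agent.Helper8.MB

open Finset Pool.Agent.Helper27.T4 Pool.Agent.Helper5.ET Pool.Agent.Helper3.T4

abbrev Hit := ((Fin 3 → ℕ) × ℕ) × ((Fin 3 → ℕ) × ℕ)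

/-- the candidates -/
def Cand (s s' : ℕ) (V V' : Finset ℕ) : Finset Hit := (XX s ×ˢ V) ×ˢ (XX s' ×ˢ V')

/-- the hits for `n` -/
noncomputable def hits (s s' : ℕ) (w : Key → ℕ) (V V' : Finset ℕ) (n : ℕ) : Finset Hit :=
  (Cand s s' V V').filter (fun q => el s w q.1.1 q.1.2 + el s' w q.2.1 q.2.2 = n)

/-- the code with given hash values -/
noncomputable def codeH (s : ℕ) (h x : Fin 3 → ℕ) : ℕ :=
  cv pr_prime pr_inj (av (se s))
    (fun f => Lg (pr f) (av (se s) f) (x f) + ((h f : ℕ) : ZMod (pr f ^ av (se s) f)))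

theorem code_eq (s : ℕ) (w : Key → ℕ) (x : Fin 3 → ℕ) :
    code s w x = codeH s (fun f => hv s w f x) x := rfl

theorem codeH_lt (s : ℕ) (h x : Fin 3 → ℕ) : codeH s h x < Nj (se s) := cv_lt _ _ _ _

theorem cast_codeH (s : ℕ) (h x : Fin 3 → ℕ) (f : Fin 3) :
    ((codeH s h x : ℕ) : ZMod (pr f ^ av (se s) f)) =
      Lg (pr f) (av (se s) f) (x f) + ((h f : ℕ) : ZMod (pr f ^ av (se s) f)) :=
  cv_cast_comp _ _ _ _ _

/-- the component of the code at a lower level -/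
theorem cast_codeH_red (s : ℕ) (h x : Fin 3 → ℕ) (f : Fin 3) (b : ℕ) (hb : b ≤ av (se s) f)
    (hx : (x f).Coprime (pr f)) :
    ((codeH s h x : ℕ) : ZMod (pr f ^ b)) =
      Lg (pr f) b (x f) + ((h f : ℕ) : ZMod (pr f ^ b)) := by
  have h1 := cast_codeH s h x f
  have h2 := congrArg (ZMod.castHom (pow_dvd_pow (pr f) hb) (ZMod (pr f ^ b))) h1
  rw [map_natCast, map_add, map_natCast] at h2
  rw [h2]
  congr 1
  exact Lg_red (pr_prime f) (pr_ne_two f) _ _ _ hx hb

/-- equation of a hit with given hash values -/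
def Eqn (s s' n : ℕ) (h h' : Fin 3 → ℕ) (q : Hit) : Prop :=
  (codeH s h q.1.1 + Nj (sl s) * q.1.2) + (codeH s' h' q.2.1 + Nj (sl s') * q.2.2) = n

theorem mem_XX {s : ℕ} {x : Fin 3 → ℕ} (hx : x ∈ XX s) (f : Fin 3) :
    (x f).Prime ∧ (x f).Coprime (pr f) ∧ (x f) ^ 2 < pr f ^ cnt f (sl s) := by
  have h := Fintype.mem_piFinset.mp hx f
  rw [Finset.mem_filter] at h
  exact h.2

theorem cnt_mono (f : Fin 3) {y z : ℕ} (h : y ≤ z) : cnt f y ≤ cnt f z :=
  Finset.card_le_card (Finset.filter_subset_filter _ (Finset.range_subset_range.mpr h))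

theorem pow_cnt_dvd_Nj (f : Fin 3) {c y : ℕ} (h : c ≤ cnt f y) : pr f ^ c ∣ Nj y :=
  (pow_dvd_pow _ h).trans (pow_dvd_NN pr (av y) f)

noncomputable instance (s s' n : ℕ) (h h' : Fin 3 → ℕ) (q : Hit) : Decidable (Eqn s s' n h h' q) := by
  unfold Eqn
  infer_instance

/-- the equation of a hit in one component, at the level `c` -/
theorem comp_eq {s s' n : ℕ} {h h' : Fin 3 → ℕ} {q : Hit} (hq : Eqn s s' n h h' q)
    (f : Fin 3) (c : ℕ) (hc : c ≤ cnt f (se s)) (hc' : c ≤ cnt f (se s'))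
    (hx : (q.1.1 f).Coprime (pr f)) (hx' : (q.2.1 f).Coprime (pr f)) :
    ((n : ℕ) : ZMod (pr f ^ c)) = (Lg (pr f) c (q.1.1 f) + (h f : ZMod (pr f ^ c)) +
      (Lg (pr f) c (q.2.1 f) + (h' f : ZMod (pr f ^ c)))) +
      ((Nj (sl s) * q.1.2 + Nj (sl s') * q.2.2 : ℕ) : ZMod (pr f ^ c)) := by
  rw [← hq]
  push_cast
  rw [cast_codeH_red s h q.1.1 f c hc hx, cast_codeH_red s' h' q.2.1 f c hc' hx']
  ring

/-- the equation of a hit in one component, at a level at which the windows vanish -/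
theorem comp_eq_low {s s' n : ℕ} {h h' : Fin 3 → ℕ} {q : Hit} (hq : Eqn s s' n h h' q)
    (f : Fin 3) (c : ℕ) (hc : c ≤ cnt f (se s)) (hc' : c ≤ cnt f (se s'))
    (hl : c ≤ cnt f (sl s)) (hl' : c ≤ cnt f (sl s'))
    (hx : (q.1.1 f).Coprime (pr f)) (hx' : (q.2.1 f).Coprime (pr f)) :
    Lg (pr f) c (q.1.1 f) + Lg (pr f) c (q.2.1 f) =
      ((n : ℕ) : ZMod (pr f ^ c)) - (h f : ZMod (pr f ^ c)) - (h' f : ZMod (pr f ^ c)) := by
  have h1 := comp_eq hq f c hc hc' hx hx'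
  have h2 : ((Nj (sl s) * q.1.2 + Nj (sl s') * q.2.2 : ℕ) : ZMod (pr f ^ c)) = 0 := by
    rw [ZMod.natCast_eq_zero_iff]
    exact Dvd.dvd.add (Dvd.dvd.mul_right (pow_cnt_dvd_Nj f hl) _)
      (Dvd.dvd.mul_right (pow_cnt_dvd_Nj f hl') _)
  rw [h2, add_zero] at h1
  rw [h1]
  ring

/-! ## data: a candidate together with the values of its fresh hash keys -/

/-- hash values: `r` on the fresh families `R`, the function `w0` outside -/
def hval (s : ℕ) (w0 : Key → ℕ) (R : Finset (Fin 3)) (r x : Fin 3 → ℕ) : Fin 3 → ℕ :=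
  fun f => if f ∈ R then r f else hv s w0 f x

/-- the possible values of the fresh keys of one candidate in the state `s` -/
def Rng (s : ℕ) (R : Finset (Fin 3)) : Finset (Fin 3 → ℕ) :=
  Fintype.piFinset (fun f => if f ∈ R then range (pr f ^ cnt f (se s)) else {0})

theorem card_Rng (s : ℕ) (R : Finset (Fin 3)) : (Rng s R).card = MM pr (av (se s)) R := by
  rw [Rng, Fintype.card_piFinset, MM, ← Finset.prod_subset (Finset.subset_univ R)]
  · refine Finset.prod_congr rfl (fun f hf => ?_)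
    rw [if_pos hf, Finset.card_range]
    rfl
  · intro f _ hf
    rw [if_neg hf, Finset.card_singleton]

/-- the data for `n`: candidates and values of the fresh keys which make them hits of `n` -/
noncomputable def YY (s s' : ℕ) (w0 : Key → ℕ) (R R' : Finset (Fin 3)) (V V' : Finset ℕ) (n : ℕ) :
    Finset (Hit × (Fin 3 → ℕ) × (Fin 3 → ℕ)) :=
  (Cand s s' V V' ×ˢ (Rng s R ×ˢ Rng s' R')).filter
    (fun z => Eqn s s' n (hval s w0 R z.2.1 z.1.1.1) (hval s' w0 R' z.2.2 z.1.2.1) z.1)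

end Pool.Agent.Helper8.MB
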