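import Pool.Agent.Helper8.MB.Meso

/-!
# T4', meso block, part (E): the form with the values of the codes as data
-/

namespace Pool.Agent.Helper8.MB

open Finset Pool.Agent.Helper27.T4 Pool.Agent.Helper5.ET Pool.Agent.Helper3.M
open Pool.Agent.Helper53.TF (glue)

theorem om_eq (s s' : ℕ) : om s s' =
    ((MM pr (av (se s)) (RR s s') : ℝ) * MM pr (av (se s')) (RR' s s'))⁻¹ := by
  unfold om MM av
  push_cast
  rw [mul_inv, Finset.prod_inv_distrib, Finset.prod_inv_distrib]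

theorem om_pos (s s' : ℕ) : 0 < om s s' := by
  rw [om_eq]
  have h1 := MM_pos pr_prime (av (se s)) (RR s s')
  have h2 := MM_pos pr_prime (av (se s')) (RR' s s')
  positivity

theorem om_inv_le (s s' : ℕ) : (om s s')⁻¹ ≤ (Nj (se s) : ℝ) * Nj (se s') := by
  rw [om_eq, inv_inv]
  have h1 : (MM pr (av (se s)) (RR s s') : ℝ) ≤ Nj (se s) := by
    exact_mod_cast MM_le_NN (av (se s)) (RR s s')
  have h2 : (MM pr (av (se s')) (RR' s s') : ℝ) ≤ Nj (se s') := by
    exact_mod_cast MM_le_NN (av (se s')) (RR' s s')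
  exact mul_le_mul h1 h2 (Nat.cast_nonneg _) (Nat.cast_nonneg _)

theorem YY_le_Dat (s s' : ℕ) (w0 : Key → ℕ) (V V' : Finset ℕ) (n : ℕ) :
    (YY s s' w0 (RR s s') (RR' s s') V V' n).card ≤ (Dat s s' w0 V V' n).card := by
  classical
  apply Finset.card_le_card_of_injOn (fun z => (z.1,
    (codeH s (hval s w0 (RR s s') z.2.1 z.1.1.1) z.1.1.1,
      codeH s' (hval s' w0 (RR' s s') z.2.2 z.1.2.1) z.1.2.1)))
  · intro z hz
    have hz1 := Finset.mem_coe.mp hz
    unfold YY at hz1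
    rw [Finset.mem_filter, Finset.mem_product, Finset.mem_product] at hz1
    obtain ⟨⟨hc, hr, hr'⟩, he⟩ := hz1
    apply Finset.mem_coe.mpr
    unfold Dat
    refine Finset.mem_filter.mpr ⟨Finset.mem_product.mpr ⟨hc, Finset.mem_product.mpr
      ⟨Finset.mem_range.mpr (codeH_lt _ _ _), Finset.mem_range.mpr (codeH_lt _ _ _)⟩⟩, ?_, ?_, ?_⟩
    · exact he
    · intro f hf
      show ((codeH s (hval s w0 (RR s s') z.2.1 z.1.1.1) z.1.1.1 : ℕ) :
        ZMod (pr f ^ av (se s) f)) = cmp s w0 z.1.1.1 f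
      rw [cast_codeH]
      unfold hval Helper5.ET.cmp
      simp only [if_neg hf]
    · intro f hf
      show ((codeH s' (hval s' w0 (RR' s s') z.2.2 z.1.2.1) z.1.2.1 : ℕ) :
        ZMod (pr f ^ av (se s') f)) = cmp s' w0 z.1.2.1 f
      rw [cast_codeH]
      unfold hval Helper5.ET.cmp
      simp only [if_neg hf]
  · intro z hz z2 hz2 h
    have hz1 := Finset.mem_coe.mp hz
    have hz3 := Finset.mem_coe.mp hz2
    unfold YY at hz1 hz3
    rw [Finset.mem_filter, Finset.mem_product, Finset.mem_product] at hz1 hz3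
    obtain ⟨⟨hc, hr, hr'⟩, he⟩ := hz1
    obtain ⟨⟨hc2, hr2, hr2'⟩, he2⟩ := hz3
    simp only [Prod.mk.injEq] at h
    obtain ⟨hq, h1, h2⟩ := h
    obtain ⟨q, r, r'⟩ := z
    obtain ⟨q2, r2, r2'⟩ := z2
    simp only at hq h1 h2 hr hr' hr2 hr2'
    subst hq
    rw [Rng_inj hr hr2 h1, Rng_inj hr' hr2' h2]

/-- (E): the probability of `m + 1` hits for some `n ≤ N` with pairwise distinct keys on both
sides, if the expected number of hits for one `n` is at most `S` -/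
theorem meso_prob {s s' : ℕ} (hs : s ≠ s') (K : Finset Key) (hK : keysOf s ⊆ K)
    (hK' : keysOf s' ⊆ K) (hP : ∀ f ∈ RR s s', Pg s s' ⊆ pre (sl s) f)
    (hP' : ∀ f ∈ RR' s s', Pg s s' ⊆ pre (sl s') f) (w0 : Key → ℕ) (V V' : Finset ℕ) (N : ℕ)
    (S : ℝ) (hS : ∀ n ≤ N, ((Dat s s' w0 V V' n).card : ℝ) * om s s' ≤ S) (m : ℕ) :
    PrLe (K \ (K \ KF s s' K)) (fun w => ∃ n ≤ N,
        ∃ T ⊆ Hits s s' (glue (K \ KF s s' K) w0 w) V V' n, T.card = m + 1 ∧ Free s s' T)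
      (((N + 1 : ℕ) : ℝ) * ((Nj (se s) : ℝ) * Nj (se s')) * S ^ (m + 1)) := by
  classical
  have hom := om_pos s s'
  have hS0 : 0 ≤ S := by
    refine le_trans ?_ (hS 0 (Nat.zero_le _))
    positivity
  have hS2 : ∀ n ≤ N, ((YY s s' w0 (RR s s') (RR' s s') V V' n).card : ℝ) ≤
      S * ((MM pr (av (se s)) (RR s s') : ℝ) * MM pr (av (se s')) (RR' s s')) := by
    intro n hn
    have h1 := hS n hn
    have h2 : ((MM pr (av (se s)) (RR s s') : ℝ) * MM pr (av (se s')) (RR' s s')) =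
        (om s s')⁻¹ := by
      rw [om_eq, inv_inv]
    rw [h2, ← div_eq_mul_inv, le_div_iff₀ hom]
    refine le_trans ?_ h1
    apply mul_le_mul_of_nonneg_right _ hom.le
    exact_mod_cast YY_le_Dat s s' w0 V V' n
  have h := keys_prob hs K hK hK' (RR s s') (RR' s s') (Pg s s') hP hP' w0 V V' N S hS2 m
  rw [K0_eq] at h
  refine Pool.Agent.Helper53.TF.PrLe_mono ?_ ?_ h
  · rintro r hr ⟨n, hn, T, hT, hTc, hF⟩
    refine ⟨n, hn, T, hT, hTc, ?_, ?_⟩
    · intro q hq q' hq' hne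
      exact (hF q hq q' hq' hne).1
    · intro q hq q' hq' hne
      exact (hF q hq q' hq' hne).2
  · have h2 : ((MM pr (av (se s)) (RR s s') : ℝ) * MM pr (av (se s')) (RR' s s')) ≤
        (Nj (se s) : ℝ) * Nj (se s') := by
      have := om_inv_le s s'
      rwa [om_eq, inv_inv] at this
    have h3 : (0 : ℝ) ≤ ((N + 1 : ℕ) : ℝ) := Nat.cast_nonneg _
    have h4 : (0 : ℝ) ≤ S ^ (m + 1) := pow_nonneg hS0 _
    calc ((N + 1 : ℕ) : ℝ) * (S * ((MM pr (av (se s)) (RR s s') : ℝ) *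
          MM pr (av (se s')) (RR' s s'))) * S ^ m
        = ((N + 1 : ℕ) : ℝ) * ((MM pr (av (se s)) (RR s s') : ℝ) *
          MM pr (av (se s')) (RR' s s')) * S ^ (m + 1) := by ring
      _ ≤ _ := mul_le_mul_of_nonneg_right (mul_le_mul_of_nonneg_left h2 h3) h4

end Pool.Agent.Helper8.MB
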