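import Pool.Agent.Helper8.MB.Prob
import Pool.Agent.Helper3.M.Defs

/-!
# T4', meso block, part (E): auxiliary facts
-/

namespace Pool.Agent.Helper8.MB

open Finset Pool.Agent.Helper27.T4 Pool.Agent.Helper5.ET Pool.Agent.Helper3.M
open Pool.Agent.Helper53.TF (glue)

theorem val_inj {p c a b : ℕ} (ha : a < p ^ c) (hb : b < p ^ c)
    (h : (a : ZMod (p ^ c)) = (b : ZMod (p ^ c))) : a = b := by
  rw [ZMod.natCast_eq_natCast_iff, Nat.ModEq, Nat.mod_eq_of_lt ha, Nat.mod_eq_of_lt hb] at h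
  exact h

/-- the code determines the values of the fresh keys -/
theorem Rng_inj {s : ℕ} {w0 : Key → ℕ} {R : Finset (Fin 3)} {x r r2 : Fin 3 → ℕ}
    (hr : r ∈ Rng s R) (hr2 : r2 ∈ Rng s R)
    (h : codeH s (hval s w0 R r x) x = codeH s (hval s w0 R r2 x) x) : r = r2 := by
  funext f
  unfold Rng at hr hr2
  rw [Fintype.mem_piFinset] at hr hr2
  have h1 := hr f
  have h2 := hr2 f
  by_cases hf : f ∈ R
  · rw [if_pos hf, Finset.mem_range] at h1 h2
    have h3 := cast_codeH s (hval s w0 R r x) x f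
    have h4 := cast_codeH s (hval s w0 R r2 x) x f
    rw [h, h4] at h3
    have h5 := add_left_cancel h3
    unfold hval at h5
    simp only [if_pos hf] at h5
    exact (val_inj h2 h1 h5).symm
  · rw [if_neg hf, Finset.mem_singleton] at h1 h2
    rw [h1, h2]

theorem K0_eq (s s' : ℕ) (K : Finset Key) :
    K0 s s' (RR s s') (RR' s s') K = K \ KF s s' K := by
  ext k
  unfold K0 KF
  rw [Finset.mem_filter, Finset.mem_sdiff, Finset.mem_filter]
  constructor
  · rintro ⟨h1, h2⟩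
    exact ⟨h1, fun h => h2 h.2⟩
  · rintro ⟨h1, h2⟩
    exact ⟨h1, fun h => h2 ⟨h1, h⟩⟩

theorem MM_le_NN (a : Fin 3 → ℕ) (R : Finset (Fin 3)) : MM pr a R ≤ NN pr a := by
  have h := NN_fx_mul (p := pr) a R
  have h1 := NN_pos pr_prime (fx a R)
  calc MM pr a R ≤ NN pr (fx a R) * MM pr a R := Nat.le_mul_of_pos_left _ h1
    _ = NN pr a := h

end Pool.Agent.Helper8.MB
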