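import Pool.Agent.Helper20.MB.St.Stubs2
import Pool.Agent.Helper20.M8.Lam
import Pool.Agent.Helper20.M8.Fib
import Pool.Agent.Helper20.M8.Normal2

/-!
# Project MB, pieces 7d and 7f: pullback of the metric under a gauge transformation, and the
metric of the sphere bundle is a metric
-/

open Filter Metric Module Set
open scoped Topology ContDiff RealInnerProductSpace Manifold

set_option maxSynthPendingDepth 3

namespace Pool.Agent.Helper8.MB
open Pool.Agent.Helper20.PC Pool.Agent.Helper20.HP Pool.Agent.Helper20.M8 Pool.Agent.Helper20.MB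

section
variable {V Y : Type*} [NormedAddCommGroup V] [NormedSpace ℝ V] [FiniteDimensional ℝ V]
  [NormedAddCommGroup Y] [NormedSpace ℝ Y] [FiniteDimensional ℝ Y] {D : BD V Y} {x : V} {y : Y}

private lemma fderiv_gmap (A : V → V →L[ℝ] Y →L[ℝ] Y) (x : V) (z u : V × Y) :
    fderiv ℝ (gmap A x) z u = (u.1, fderiv ℝ (gau A x) z.1 u.1 z.2 + gau A x z.1 u.2) := by
  have f1 : HasFDerivAt (fun w : V × Y => w.1) (ContinuousLinearMap.fst ℝ V Y) z := hasFDerivAt_fst
  have f2 : HasFDerivAt (fun w : V × Y => w.2) (ContinuousLinearMap.snd ℝ V Y) z := hasFDerivAt_snd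
  have g0 : HasFDerivAt (gau A x) (fderiv ℝ (gau A x) z.1) z.1 :=
    (((Spec.gau_contDiff A x).contDiffAt).differentiableAt (by norm_num)).hasFDerivAt
  have g1 : HasFDerivAt (fun w : V × Y => gau A x w.1)
      ((fderiv ℝ (gau A x) z.1).comp (ContinuousLinearMap.fst ℝ V Y)) z :=
    HasFDerivAt.comp z g0 f1
  have g2 := g1.clm_apply f2
  have g3 : HasFDerivAt (gmap A x) _ z := f1.prodMk g2
  rw [g3.fderiv]
  ext
  · simp
  · simp [add_comm]

-- MB-7d : pullback of the metric (uses MB-7a)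
theorem til_G (H : D.Good x) (η : ℝ) (y : Y) : ∀ᶠ z in 𝓝 (x, y), ∀ u v,
    (D.til x).G η z u v
      = D.G η (gmap D.A x z) (fderiv ℝ (gmap D.A x) z u) (fderiv ℝ (gmap D.A x) z v) := by
  have _ := H
  have cf : Tendsto (fun w : V × Y => w.1) (𝓝 (x, y)) (𝓝 x) := continuous_fst.tendsto (x, y)
  filter_upwards [cf.eventually (Spec.gau_inv D.A x).1] with z hz u v
  have hinv : ∀ p : Y, gau D.A x z.1 ((gau D.A x z.1).inverse p) = p := by
    obtain ⟨e, he⟩ := hz
    intro p
    rw [← he, ContinuousLinearMap.inverse_equiv]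
    simp
  have hl : ∀ u : V × Y, lamV D.A (gmap D.A x z) (fderiv ℝ (gmap D.A x) z u)
      = gau D.A x z.1 (lamV (D.til x).A z u) := by
    intro u
    rw [lamV_apply, lamV_apply, fderiv_gmap, BD.til_A, map_add, hinv]
    simp only [gmap]
    abel
  have hG1 : (D.til x).G η z u v = D.h z.1 u.1 v.1
      + fibL (D.til x).k (D.til x).S η z (lamV (D.til x).A z u) (lamV (D.til x).A z v) := by
    rw [BD.G, SB, nMet_apply]
    rfl
  have hG2 : D.G η (gmap D.A x z) (fderiv ℝ (gmap D.A x) z u) (fderiv ℝ (gmap D.A x) z v)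
      = D.h z.1 u.1 v.1 + fibL D.k D.S η (gmap D.A x z) (gau D.A x z.1 (lamV (D.til x).A z u))
        (gau D.A x z.1 (lamV (D.til x).A z v)) := by
    rw [BD.G, SB, nMet_apply, hl, hl, fderiv_gmap, fderiv_gmap]
    rfl
  rw [hG1, hG2, fibL_apply, fibL_apply]
  simp only [BD.til_k, BD.til_S, gmap]

private lemma pos_open {X W : Type*} [TopologicalSpace X] [NormedAddCommGroup W] [NormedSpace ℝ W]
    [FiniteDimensional ℝ W] {f : X → W →L[ℝ] W →L[ℝ] ℝ} {z : X} (hf : ContinuousAt f z)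
    (hp : ∀ a, a ≠ 0 → 0 < f z a a) : ∀ᶠ z' in 𝓝 z, ∀ a, a ≠ 0 → 0 < f z' a a := by
  have h1 : ∀ᶠ z' in 𝓝 z, ∀ a ∈ sphere (0 : W) 1, 0 < f z' a a := by
    refine (isCompact_sphere (0 : W) 1).eventually_forall_of_forall_eventually
      (P := fun z' a => 0 < f z' a a) ?_
    intro a ha
    have ha0 : a ≠ 0 := by
      rintro rfl
      simp at ha
    have c1 : ContinuousAt (fun w : X × W => f w.1) (z, a) :=
      ContinuousAt.comp (x := (z, a)) (g := f) (f := Prod.fst) hf continuousAt_fst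
    have c2 : ContinuousAt (fun w : X × W => f w.1 w.2 w.2) (z, a) :=
      (c1.clm_apply continuousAt_snd).clm_apply continuousAt_snd
    exact c2.eventually (lt_mem_nhds (hp a ha0))
  filter_upwards [h1] with z' hz' a ha
  have hn : 0 < ‖a‖ := norm_pos_iff.2 ha
  have h2 := hz' (‖a‖⁻¹ • a) (by simp [norm_smul, hn.ne'])
  have h3 : f z' (‖a‖⁻¹ • a) (‖a‖⁻¹ • a) = (‖a‖⁻¹ * ‖a‖⁻¹) * f z' a a := by
    simp
    ring
  rw [h3] at h2
  exact (mul_pos_iff_of_pos_left (by positivity)).1 h2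

-- MB-7f : the metric of the sphere bundle is a metric
theorem metAt_G (H : D.Good x) {η : ℝ} (hy : y ≠ 0) (hpos : ∀ a, a ≠ 0 → 0 < fibL D.k D.S η (x, y) a a) :
    MetAt (D.G η) (x, y) := by
  have hky : D.k x y y ≠ 0 := (H.kpos.self_of_nhds y hy).ne'
  have cf : Tendsto (fun w : V × Y => w.1) (𝓝 (x, y)) (𝓝 x) := continuous_fst.tendsto (x, y)
  have hF : ContDiffAt ℝ 2 (fibL D.k D.S η) (x, y) :=
    contDiffAt_fibL (z := (x, y)) (H.hk.of_le (by norm_cast))
      (H.hS.of_le (by norm_cast)) hky η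
  refine ⟨?_, ?_, ?_⟩
  · exact contDiffAt_nMet (z := (x, y)) (H.hh.of_le (by norm_cast)) hF
      (contDiffAt_lamV (z := (x, y)) (H.hA.of_le (by norm_cast)))
  · filter_upwards [cf.eventually H.hsymm, cf.eventually H.ksymm, cf.eventually H.S2]
      with z h1 h2 h3 u v
    rw [BD.G, SB, nMet_apply, nMet_apply, h1 u.1 v.1, fibL_apply, fibL_apply,
      h2 (lamV D.A z u) (lamV D.A z v), h3 z.2 (lamV D.A z u) z.2 (lamV D.A z v)]
    ring
  · filter_upwards [cf.eventually H.hpos, pos_open hF.continuousAt hpos] with z h1 h2 u hu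
    rw [BD.G, SB, nMet_apply]
    have h3 : 0 ≤ fibL D.k D.S η z (lamV D.A z u) (lamV D.A z u) := by
      by_cases h0 : lamV D.A z u = 0
      · rw [h0]; simp
      · exact (h2 _ h0).le
    by_cases hu1 : u.1 = 0
    · have hu2 : u.2 ≠ 0 := fun hu2 => hu (Prod.ext hu1 hu2)
      have h4 : lamV D.A z u = u.2 := by rw [lamV_apply, hu1]; simp
      have h5 := h2 u.2 hu2
      rw [h4, hu1]
      simpa using h5
    · have h6 := h1 u.1 hu1
      linarith

end

end Pool.Agent.Helper8.MB
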