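import Pool.Agent.Helper8.MB.Defs
import Pool.Agent.Helper25.T4.Keys
import Pool.Agent.Helper53.TF.Cond
import Pool.Agent.Helper29.T4.Pin

/-!
# T4', meso block, part M2: the probability of many hits with distinct keys

The hash keys of the families `R` in the state `s` and `R'` in the state `s'` are random, all other
keys are fixed.
-/

namespace Pool.Agent.Helper8.MB

open Finset Pool.Agent.Helper27.T4 Pool.Agent.Helper5.ET Pool.Agent.Helper25.T4
open Pool.Agent.Helper53.TF (glue glue_mem glue_not_mem Mk_pos ext_mem ext_not_mem mem_OmK)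

/-- the fresh keys -/
def IsFresh (s s' : ℕ) (R R' : Finset (Fin 3)) (k : Key) : Prop :=
  (k.1 = s ∧ ∃ f ∈ R, k.2.1 = f.val) ∨ (k.1 = s' ∧ ∃ f ∈ R', k.2.1 = f.val)

instance (s s' : ℕ) (R R' : Finset (Fin 3)) (k : Key) : Decidable (IsFresh s s' R R' k) := by
  unfold IsFresh
  infer_instance

/-- the fixed keys -/
def K0 (s s' : ℕ) (R R' : Finset (Fin 3)) (K : Finset Key) : Finset Key :=
  K.filter (fun k => ¬ IsFresh s s' R R' k)

theorem K0_sub (s s' : ℕ) (R R' : Finset (Fin 3)) (K : Finset Key) : K0 s s' R R' K ⊆ K :=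
  Finset.filter_subset _ _

theorem fresh_hkey {s s' : ℕ} {R R' : Finset (Fin 3)} {f : Fin 3} (hf : f ∈ R) (x : Fin 3 → ℕ) :
    IsFresh s s' R R' (hkey s f x) := Or.inl ⟨rfl, f, hf, rfl⟩

theorem fresh_hkey' {s s' : ℕ} {R R' : Finset (Fin 3)} {f : Fin 3} (hf : f ∈ R') (x : Fin 3 → ℕ) :
    IsFresh s s' R R' (hkey s' f x) := Or.inr ⟨rfl, f, hf, rfl⟩

theorem not_fresh_hkey {s s' : ℕ} (hs : s ≠ s') {R R' : Finset (Fin 3)} {f : Fin 3} (hf : f ∉ R)
    (x : Fin 3 → ℕ) : ¬ IsFresh s s' R R' (hkey s f x) := by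
  rintro (⟨_, g, hg, h⟩ | ⟨h, _⟩)
  · have : f = g := Fin.ext h
    exact hf (this ▸ hg)
  · exact hs h

theorem not_fresh_hkey' {s s' : ℕ} (hs : s ≠ s') {R R' : Finset (Fin 3)} {f : Fin 3} (hf : f ∉ R')
    (x : Fin 3 → ℕ) : ¬ IsFresh s s' R R' (hkey s' f x) := by
  rintro (⟨h, _⟩ | ⟨_, g, hg, h⟩)
  · exact hs h.symm
  · have : f = g := Fin.ext h
    exact hf (this ▸ hg)

/-- the hash values in the glued assignment -/
theorem hv_glue {s s' : ℕ} (hs : s ≠ s') {R R' : Finset (Fin 3)} {K : Finset Key}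
    (hK : keysOf s ⊆ K) (w0 w : Key → ℕ) {x : Fin 3 → ℕ} (hx : x ∈ XX s) :
    (fun f => hv s (glue (K0 s s' R R' K) w0 w) f x) =
      hval s w0 R (fun f => if f ∈ R then w (hkey s f x) else 0) x := by
  funext f
  show glue (K0 s s' R R' K) w0 w (hkey s f x) = _
  unfold hval
  by_cases hf : f ∈ R
  · simp only [if_pos hf]
    rw [glue_not_mem]
    unfold K0
    rw [Finset.mem_filter]
    exact fun h => h.2 (fresh_hkey hf x)
  · rw [if_neg hf, glue_mem]
    · rfl
    · unfold K0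
      rw [Finset.mem_filter]
      exact ⟨hK (hkey_mem hx f), not_fresh_hkey hs hf x⟩

theorem hv_glue' {s s' : ℕ} (hs : s ≠ s') {R R' : Finset (Fin 3)} {K : Finset Key}
    (hK : keysOf s' ⊆ K) (w0 w : Key → ℕ) {x : Fin 3 → ℕ} (hx : x ∈ XX s') :
    (fun f => hv s' (glue (K0 s s' R R' K) w0 w) f x) =
      hval s' w0 R' (fun f => if f ∈ R' then w (hkey s' f x) else 0) x := by
  funext f
  show glue (K0 s s' R R' K) w0 w (hkey s' f x) = _
  unfold hval
  by_cases hf : f ∈ R'
  · simp only [if_pos hf]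
    rw [glue_not_mem]
    unfold K0
    rw [Finset.mem_filter]
    exact fun h => h.2 (fresh_hkey' hf x)
  · rw [if_neg hf, glue_mem]
    · rfl
    · unfold K0
      rw [Finset.mem_filter]
      exact ⟨hK (hkey_mem hx f), not_fresh_hkey' hs hf x⟩

theorem mem_Rng {s : ℕ} {R : Finset (Fin 3)} {w : Key → ℕ} (hw : ∀ k, w k < Mk k)
    (x : Fin 3 → ℕ) : (fun f => if f ∈ R then w (hkey s f x) else 0) ∈ Rng s R := by
  unfold Rng
  rw [Fintype.mem_piFinset]
  intro f
  by_cases hf : f ∈ R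
  · rw [if_pos hf, if_pos hf, Finset.mem_range, ← Mk_hkey s f x]
    exact hw _
  · rw [if_neg hf, if_neg hf, Finset.mem_singleton]

/-- the fresh keys of a candidate -/
def fkk (s s' : ℕ) (R R' : Finset (Fin 3)) (q : Hit) : Finset Key :=
  R.image (fun f => hkey s f q.1.1) ∪ R'.image (fun f => hkey s' f q.2.1)

theorem hkey_inj_f {s : ℕ} {f g : Fin 3} {x y : Fin 3 → ℕ} (h : hkey s f x = hkey s g y) :
    f = g := by
  unfold hkey at h
  exact Fin.ext (Prod.mk.inj (Prod.mk.inj h).2).1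

theorem hkey_s {s t : ℕ} {f g : Fin 3} {x y : Fin 3 → ℕ} (h : hkey s f x = hkey t g y) :
    s = t := by
  unfold hkey at h
  exact (Prod.mk.inj h).1

theorem fkk_sub {s s' : ℕ} {K : Finset Key} (hK : keysOf s ⊆ K) (hK' : keysOf s' ⊆ K)
    (R R' : Finset (Fin 3)) {q : Hit} (h1 : q.1.1 ∈ XX s) (h2 : q.2.1 ∈ XX s') :
    fkk s s' R R' q ⊆ K \ K0 s s' R R' K := by
  intro k hk
  rw [fkk, Finset.mem_union, Finset.mem_image, Finset.mem_image] at hk
  unfold K0
  rw [Finset.mem_sdiff, Finset.mem_filter]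
  rcases hk with ⟨f, hf, rfl⟩ | ⟨f, hf, rfl⟩
  · exact ⟨hK (hkey_mem h1 f), fun h => h.2 (fresh_hkey hf _)⟩
  · exact ⟨hK' (hkey_mem h2 f), fun h => h.2 (fresh_hkey' hf _)⟩

theorem prod_fkk {s s' : ℕ} (hs : s ≠ s') (R R' : Finset (Fin 3)) (q : Hit) :
    ∏ k ∈ fkk s s' R R' q, ((Mk k : ℝ))⁻¹ =
      ((MM pr (av (se s)) R : ℝ) * MM pr (av (se s')) R')⁻¹ := by
  unfold fkk MM
  rw [mul_inv, Finset.prod_union, Finset.prod_image, Finset.prod_image]
  · push_cast
    rw [← Finset.prod_inv_distrib, ← Finset.prod_inv_distrib]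
    congr 1
    · refine Finset.prod_congr rfl (fun f _ => ?_)
      rw [Mk_hkey]
      push_cast
      rfl
    · refine Finset.prod_congr rfl (fun f _ => ?_)
      rw [Mk_hkey]
      push_cast
      rfl
  · intro f _ g _ h
    exact hkey_inj_f h
  · intro f _ g _ h
    exact hkey_inj_f h
  · rw [Finset.disjoint_left]
    intro k hk hk'
    rw [Finset.mem_image] at hk hk'
    obtain ⟨f, _, rfl⟩ := hk
    obtain ⟨g, _, hg⟩ := hk'
    exact hs (hkey_s hg).symm

theorem mask_sub {P Q : Finset (Fin 3)} (h : P ⊆ Q) {x y : Fin 3 → ℕ}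
    (hxy : mask Q x = mask Q y) : mask P x = mask P y := by
  funext g
  have h1 := congrFun hxy g
  unfold mask at h1 ⊢
  by_cases hg : g ∈ P
  · rw [if_pos (h hg), if_pos (h hg)] at h1
    rw [if_pos hg, if_pos hg]
    exact h1
  · rw [if_neg hg, if_neg hg]

theorem fkk_disj {s s' : ℕ} (hs : s ≠ s') {R R' P : Finset (Fin 3)}
    (hP : ∀ f ∈ R, P ⊆ pre (sl s) f) (hP' : ∀ f ∈ R', P ⊆ pre (sl s') f) {q q' : Hit}
    (h1 : mask P q.1.1 ≠ mask P q'.1.1) (h2 : mask P q.2.1 ≠ mask P q'.2.1) :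
    Disjoint (fkk s s' R R' q) (fkk s s' R R' q') := by
  rw [Finset.disjoint_left]
  intro k hk hk'
  rw [fkk, Finset.mem_union, Finset.mem_image, Finset.mem_image] at hk hk'
  rcases hk with ⟨f, hf, rfl⟩ | ⟨f, hf, rfl⟩
  · rcases hk' with ⟨g, hg, he⟩ | ⟨g, hg, he⟩
    · have hfg := hkey_inj_f he
      subst hfg
      exact h1 (mask_sub (hP g hg) (Prod.mk.inj (Prod.mk.inj he).2).2.symm)
    · exact hs (hkey_s he).symm
  · rcases hk' with ⟨g, hg, he⟩ | ⟨g, hg, he⟩
    · exact hs (hkey_s he)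
    · have hfg := hkey_inj_f he
      subst hfg
      exact h2 (mask_sub (hP' g hg) (Prod.mk.inj (Prod.mk.inj he).2).2.symm)

theorem card_filter_le_of_imp {α : Type*} (S : Finset α) (P P' : α → Prop)
    (iP : DecidablePred P) (iP' : DecidablePred P') (h : ∀ a ∈ S, P a → P' a) :
    (@Finset.filter _ P iP S).card ≤ (@Finset.filter _ P' iP' S).card := by
  apply Finset.card_le_card
  intro a ha
  simp only [Finset.mem_filter] at ha ⊢
  exact ⟨ha.1, h a ha.1 ha.2⟩

open Classical in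
/-- all data, for all `n ≤ N` -/
noncomputable def YA (s s' : ℕ) (w0 : Key → ℕ) (R R' : Finset (Fin 3)) (V V' : Finset ℕ) (N : ℕ) :
    Finset (ℕ × (Hit × (Fin 3 → ℕ) × (Fin 3 → ℕ))) :=
  (range (N + 1)).biUnion (fun n => (YY s s' w0 R R' V V' n).image (fun z => (n, z)))

theorem mem_YA {s s' : ℕ} {w0 : Key → ℕ} {R R' : Finset (Fin 3)} {V V' : Finset ℕ} {N : ℕ}
    {y : ℕ × (Hit × (Fin 3 → ℕ) × (Fin 3 → ℕ))} :
    y ∈ YA s s' w0 R R' V V' N ↔ y.1 ≤ N ∧ y.2 ∈ YY s s' w0 R R' V V' y.1 := by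
  classical
  unfold YA
  rw [Finset.mem_biUnion]
  constructor
  · rintro ⟨n, hn, hy⟩
    rw [Finset.mem_image] at hy
    obtain ⟨z, hz, rfl⟩ := hy
    exact ⟨Nat.lt_succ_iff.mp (Finset.mem_range.mp hn), hz⟩
  · rintro ⟨h1, h2⟩
    refine ⟨y.1, Finset.mem_range.mpr (Nat.lt_succ_iff.mpr h1), ?_⟩
    rw [Finset.mem_image]
    exact ⟨y.2, h2, rfl⟩

open Classical in
/-- (E): the probability of `m + 1` hits for some `n ≤ N` with distinct keys -/
theorem keys_prob {s s' : ℕ} (hs : s ≠ s') (K : Finset Key) (hK : keysOf s ⊆ K)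
    (hK' : keysOf s' ⊆ K) (R R' P : Finset (Fin 3)) (hP : ∀ f ∈ R, P ⊆ pre (sl s) f)
    (hP' : ∀ f ∈ R', P ⊆ pre (sl s') f) (w0 : Key → ℕ) (V V' : Finset ℕ) (N : ℕ) (S : ℝ)
    (hS : ∀ n ≤ N, ((YY s s' w0 R R' V V' n).card : ℝ) ≤
      S * ((MM pr (av (se s)) R : ℝ) * MM pr (av (se s')) R')) (m : ℕ) :
    PrLe (K \ K0 s s' R R' K) (fun w => ∃ n ≤ N,
        ∃ T ⊆ hits s s' (glue (K0 s s' R R' K) w0 w) V V' n, T.card = m + 1 ∧
          (∀ q ∈ T, ∀ q' ∈ T, q ≠ q' → mask P q.1.1 ≠ mask P q'.1.1) ∧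
          (∀ q ∈ T, ∀ q' ∈ T, q ≠ q' → mask P q.2.1 ≠ mask P q'.2.1))
      (((N + 1 : ℕ) : ℝ) * (S * ((MM pr (av (se s)) R : ℝ) * MM pr (av (se s')) R')) * S ^ m) := by
  have hMM : (0 : ℝ) < (MM pr (av (se s)) R : ℝ) * MM pr (av (se s')) R' := by
    have h1 := MM_pos pr_prime (av (se s)) R
    have h2 := MM_pos pr_prime (av (se s')) R'
    positivity
  have hS0 : 0 ≤ S := by
    have h1 := hS 0 (Nat.zero_le _)
    have h2 : (0 : ℝ) ≤ ((YY s s' w0 R R' V V' 0).card : ℝ) := Nat.cast_nonneg _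
    by_contra hneg
    push Not at hneg
    nlinarith
  have hmain := Pool.Agent.Helper29.T4.tuple_bound_w
    (fun k : (K \ K0 s s' R R' K : Finset Key) => Mk k.1)
    (fun k => Mk_pos k.1) (YA s s' w0 R R' V V' N)
    (fun y r => (∀ f ∈ R, Helper5.ET.ext (K \ K0 s s' R R' K) r (hkey s f y.2.1.1.1) = y.2.2.1 f) ∧
      ∀ f ∈ R', Helper5.ET.ext (K \ K0 s s' R R' K) r (hkey s' f y.2.1.2.1) = y.2.2.2 f)
    (fun y => (fkk s s' R R' y.2.1).subtype (fun k => k ∈ K \ K0 s s' R R' K))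
    (fun y k => if k.1.1 = s then
        (if h : k.1.2.1 < 3 then y.2.2.1 ⟨k.1.2.1, h⟩ else 0)
      else (if h : k.1.2.1 < 3 then y.2.2.2 ⟨k.1.2.1, h⟩ else 0))
    ?_ (fun y z => z.1 = y.1) S ?_ m
  · -- the event is contained in the event of `tuple_bound_w`
    unfold PrLe OmK
    have hYc : ((YA s s' w0 R R' V V' N).card : ℝ) ≤
        ((N + 1 : ℕ) : ℝ) * (S * ((MM pr (av (se s)) R : ℝ) * MM pr (av (se s')) R')) := by
      have h1 : (YA s s' w0 R R' V V' N).card ≤
          ∑ n ∈ range (N + 1), (YY s s' w0 R R' V V' n).card := by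
        refine Finset.card_biUnion_le.trans (Finset.sum_le_sum (fun n _ => ?_))
        exact Finset.card_image_le
      calc ((YA s s' w0 R R' V V' N).card : ℝ)
          ≤ ((∑ n ∈ range (N + 1), (YY s s' w0 R R' V V' n).card : ℕ) : ℝ) := by exact_mod_cast h1
        _ = ∑ n ∈ range (N + 1), ((YY s s' w0 R R' V V' n).card : ℝ) := by push_cast; rfl
        _ ≤ ∑ _n ∈ range (N + 1),
            (S * ((MM pr (av (se s)) R : ℝ) * MM pr (av (se s')) R')) := by
            refine Finset.sum_le_sum (fun n hn => hS n ?_)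
            exact Nat.lt_succ_iff.mp (Finset.mem_range.mp hn)
        _ = _ := by rw [Finset.sum_const, Finset.card_range, nsmul_eq_mul]
    refine le_trans ?_ (le_trans hmain ?_)
    · apply Nat.cast_le.mpr
      refine card_filter_le_of_imp _ _ _ _ _ ?_
      rintro r hr ⟨n, hn, T, hTsub, hTc, hT1, hT2⟩
      have hlt : ∀ k, Helper5.ET.ext (K \ K0 s s' R R' K) r k < Mk k :=
        Pool.Agent.Helper53.TF.ext_lt hr
      let dat : Hit → ℕ × (Hit × (Fin 3 → ℕ) × (Fin 3 → ℕ)) := fun q =>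
        (n, (q, (fun f => if f ∈ R then
          Helper5.ET.ext (K \ K0 s s' R R' K) r (hkey s f q.1.1) else 0),
          (fun f => if f ∈ R' then
          Helper5.ET.ext (K \ K0 s s' R R' K) r (hkey s' f q.2.1) else 0)))
      have hinj : Function.Injective dat := by
        intro q q' h
        exact (Prod.mk.inj (Prod.mk.inj h).2).1
      refine ⟨T.image dat, ?_, ?_, ?_, ?_, ?_⟩
      · intro y hy
        rw [Finset.mem_image] at hy
        obtain ⟨q, hq, rfl⟩ := hy
        rw [mem_YA]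
        refine ⟨hn, ?_⟩
        have hq1 := hTsub hq
        unfold hits at hq1
        rw [Finset.mem_filter] at hq1
        obtain ⟨hqC, hqE⟩ := hq1
        have hqx : q.1.1 ∈ XX s := (Finset.mem_product.mp (Finset.mem_product.mp hqC).1).1
        have hqx' : q.2.1 ∈ XX s' := (Finset.mem_product.mp (Finset.mem_product.mp hqC).2).1
        unfold YY
        rw [Finset.mem_filter]
        refine ⟨?_, ?_⟩
        · rw [Finset.mem_product, Finset.mem_product]
          exact ⟨hqC, mem_Rng hlt _, mem_Rng hlt _⟩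
        · show Eqn s s' n (hval s w0 R (fun f => if f ∈ R then
              Helper5.ET.ext (K \ K0 s s' R R' K) r (hkey s f q.1.1) else 0) q.1.1)
            (hval s' w0 R' (fun f => if f ∈ R' then
              Helper5.ET.ext (K \ K0 s s' R R' K) r (hkey s' f q.2.1) else 0) q.2.1) q
          rw [← hv_glue hs hK w0 (Helper5.ET.ext (K \ K0 s s' R R' K) r) hqx,
            ← hv_glue' hs hK' w0 (Helper5.ET.ext (K \ K0 s s' R R' K) r) hqx']
          unfold Eqn
          rw [← code_eq, ← code_eq]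
          exact hqE
      · rw [Finset.card_image_of_injective _ hinj, hTc]
      · intro y hy
        rw [Finset.mem_image] at hy
        obtain ⟨q, hq, rfl⟩ := hy
        refine ⟨fun f hf => ?_, fun f hf => ?_⟩
        · show _ = if f ∈ R then _ else 0
          rw [if_pos hf]
        · show _ = if f ∈ R' then _ else 0
          rw [if_pos hf]
      · intro y hy z hz
        rw [Finset.mem_image] at hy hz
        obtain ⟨q, hq, rfl⟩ := hy
        obtain ⟨q', hq', rfl⟩ := hz
        rfl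
      · intro y hy z hz hyz
        rw [Finset.mem_image] at hy hz
        obtain ⟨q, hq, rfl⟩ := hy
        obtain ⟨q', hq', rfl⟩ := hz
        have hne : q ≠ q' := fun h => hyz (by rw [h])
        have hd := fkk_disj hs hP hP' (hT1 q hq q' hq' hne) (hT2 q hq q' hq' hne)
        rw [Finset.disjoint_left]
        intro k hk hk'
        rw [Finset.mem_subtype] at hk hk'
        exact Finset.disjoint_left.mp hd hk hk'
    · rw [mul_comm]
      apply mul_le_mul_of_nonneg_right _ (Nat.cast_nonneg _)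
      exact mul_le_mul_of_nonneg_right hYc (pow_nonneg hS0 m)
  · -- the values of the fresh keys
    intro y hy r hr hhit k hk
    rw [Finset.mem_subtype, fkk, Finset.mem_union, Finset.mem_image, Finset.mem_image] at hk
    have hext : Helper5.ET.ext (K \ K0 s s' R R' K) r k.1 = r k := ext_mem r k.2
    rcases hk with ⟨f, hf, he⟩ | ⟨f, hf, he⟩
    · have h1 := hhit.1 f hf
      rw [he, hext] at h1
      have hs1 : k.1.1 = s := by rw [← he]; rfl
      have hf1 : k.1.2.1 = f.val := by rw [← he]; rfl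
      have hlt : k.1.2.1 < 3 := by rw [hf1]; exact f.isLt
      have hff : (⟨k.1.2.1, hlt⟩ : Fin 3) = f := Fin.ext hf1
      show r k = if k.1.1 = s then _ else _
      rw [if_pos hs1, dif_pos hlt, hff]
      exact h1
    · have h1 := hhit.2 f hf
      rw [he, hext] at h1
      have hs1 : k.1.1 = s' := by rw [← he]; rfl
      have hf1 : k.1.2.1 = f.val := by rw [← he]; rfl
      have hlt : k.1.2.1 < 3 := by rw [hf1]; exact f.isLt
      have hff : (⟨k.1.2.1, hlt⟩ : Fin 3) = f := Fin.ext hf1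
      show r k = if k.1.1 = s then _ else _
      rw [if_neg (by rw [hs1]; exact hs.symm), dif_pos hlt, hff]
      exact h1
  · -- the expected number
    intro y hy
    have hyN := (mem_YA.mp hy).1
    have key : ∀ F : Finset (ℕ × (Hit × (Fin 3 → ℕ) × (Fin 3 → ℕ))),
        (∀ z ∈ F, z ∈ YA s s' w0 R R' V V' N ∧ z.1 = y.1) →
        ∑ z ∈ F, ∏ k ∈ (fkk s s' R R' z.2.1).subtype (fun k => k ∈ K \ K0 s s' R R' K),
          ((Mk k.1 : ℝ))⁻¹ ≤ S := by
      intro F hF
      have hc : F.card ≤ (YY s s' w0 R R' V V' y.1).card := by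
        apply Finset.card_le_card_of_injOn (fun z => z.2)
        · intro z hz
          have hz' := hF z (Finset.mem_coe.mp hz)
          have h1 := (mem_YA.mp hz'.1).2
          rw [hz'.2] at h1
          exact Finset.mem_coe.mpr h1
        · intro z hz z' hz' h
          have h1 := (hF z (Finset.mem_coe.mp hz)).2
          have h2 := (hF z' (Finset.mem_coe.mp hz')).2
          exact Prod.ext (h1.trans h2.symm) h
      have h3 := hS y.1 hyN
      have hcR : (F.card : ℝ) * ((MM pr (av (se s)) R : ℝ) * MM pr (av (se s')) R')⁻¹ ≤ S := by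
        rw [← div_eq_mul_inv, div_le_iff₀ hMM]
        refine le_trans ?_ h3
        exact_mod_cast hc
      refine le_trans (le_of_eq ?_) hcR
      rw [← nsmul_eq_mul, ← Finset.sum_const]
      apply Finset.sum_congr rfl
      intro z hz
      have hzY := (mem_YA.mp (hF z hz).1).2
      unfold YY at hzY
      rw [Finset.mem_filter, Finset.mem_product] at hzY
      have hqC := hzY.1.1
      have hqx := (Finset.mem_product.mp (Finset.mem_product.mp hqC).1).1
      have hqx' := (Finset.mem_product.mp (Finset.mem_product.mp hqC).2).1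
      rw [Finset.prod_subtype_eq_prod_filter (p := fun k => k ∈ K \ K0 s s' R R' K)
        (f := fun k : Key => ((Mk k : ℝ))⁻¹)]
      rw [Finset.filter_true_of_mem (fkk_sub hK hK' R R' hqx hqx'), prod_fkk hs]
    exact key _ (fun z hz => by simpa only [Finset.mem_filter] using hz)

end Pool.Agent.Helper8.MB
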